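import Pool.Agent.H21.GH.Univ
import Pool.Agent.H21.GH.Mot
import Pool.Graph.R_pool_sql_team_seeded_b0a926ef.R904.CH.Res

/-!
# Ranks of higher Chow groups of arithmetic schemes and graph hypersurfaces

For a finite simple graph `G` with the vertices `1, …, n` let `Ĝ` be the cone over `G`: the graph with
one more vertex, which is joined to all vertices of `G`. Let `x_v` be the variable of the edge between
`v` and the new vertex, and `x_e` the variable of the edge `e` of `G`. The polynomial `kir R G` is the
determinant of the reduced Laplacian of `Ĝ`,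

  `L_vv = x_v + ∑_{e ∋ v} x_e`, `L_vw = - x_e` for an edge `e = {v, w}`, and `L_vw = 0` otherwise,

so (theorem of Kirchhoff) it is the sum of the products `∏_{e ∈ T} x_e` over the spanning trees `T` of
`Ĝ`, and `X_G` is the graph hypersurface `kir R G = 0` in the affine space of the edges over `R`.

`ChowThy` (library) lists the properties of the groups `CH_m(X, i) ⊗ ℚ` of schemes of finite type
over `ℤ` (indexed by dimension) which are used: localization, homotopy invariance for the affine
bundles of Jouanolou, a surjection `CH_{m+1}(X × 𝔾_m, i) → CH_m(X, i)`, and finite rank in dimension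
at most one (Quillen, Harder). `K.Fin X` means that all groups `CH_m(X, i)` have finite rank.
-/

set_option autoImplicit false

open CategoryTheory AlgebraicGeometry Pool.Agent.R904.CU Pool.Agent.R904.CH Pool.Agent.Y116.UV
  Pool.Agent.H21.GH
open Pool.Agent.R904.TR (ft_int dim_int)

namespace Pool.Agent.Results.MP_12d50c_ag.GraphHypersurfaces

/-- the graph hypersurface `X_G` over `R` -/
noncomputable def XG (R : Type) [CommRing R] {n : ℕ} (G : SimpleGraph (Fin n)) : Scheme.{0} :=
  Spec (CommRingCat.of (MvPolynomial (Fin n ⊕ G.edgeSet) R ⧸ Ideal.span {kir R G}))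

theorem base (K : ChowThy) (sep : Prop) {R : Type} [CommRing R] [Algebra.FiniteType ℤ R]
    (h1 : ringKrullDim R ≤ 1) (h2 : Pool.Agent.Q193.LT.Frac R)
    (h : ∀ (n : ℕ) (G : SimpleGraph (Fin n)), K.Fin (XG R G)) (X : Sch R) (hX : FT sep X) :
    K.Fin X.left := by
  have hN : IsNoetherianRing R := Algebra.FiniteType.isNoetherianRing ℤ R
  exact universal h2 (bnd K sep (fin_dim_one K R h1)) (fun n G => h n G) X hX

theorem fin_graph (K : ChowThy) {R : Type} [CommRing R] [Algebra.FiniteType ℤ R]
    (h : ∀ (X : Scheme.{0}) (f : X ⟶ Spec (.of R)), FinType R X f → K.Fin X) (n : ℕ)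
    (G : SimpleGraph (Fin n)) : K.Fin (XG R G) := by
  have h1 : FT False (kirS R G) := ft_kirS G False
  exact h _ (kirS R G).hom ⟨h1.locallyOfFiniteType, h1.quasiCompact⟩

/-- **Ranks of higher Chow groups and graph hypersurfaces.** (1) All higher Chow groups of all schemes
of finite type over `ℤ` have finite rank if and only if this is true for the graph hypersurfaces `X_G`
over `ℤ`. (2) The same is true over `R`, if `R` is a finitely generated ring of dimension at most one in
which every element is a quotient of two integers, for instance `R = ℤ/p`. (3) For the prime field `R = ℤ/p` it is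
also equivalent that the groups of all smooth separated schemes of finite type over `ℤ/p` have finite
rank. -/
theorem result (K : ChowThy) :
    (K.All ↔ ∀ (n : ℕ) (G : SimpleGraph (Fin n)), K.Fin (XG ℤ G)) ∧
    (∀ (R : Type) [CommRing R] [Algebra.FiniteType ℤ R], ringKrullDim R ≤ 1 →
      (∀ r : R, ∃ d w : ℤ, IsUnit (d : R) ∧ (w : R) = d * r) →
      ((∀ (X : Scheme.{0}) (f : X ⟶ Spec (.of R)), FinType R X f → K.Fin X) ↔
        ∀ (n : ℕ) (G : SimpleGraph (Fin n)), K.Fin (XG R G))) ∧
    ∀ (p : ℕ) [Fact p.Prime],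
      ((∀ d : ℕ, K.SmoothDim (ZMod p) d) ↔
        ∀ (n : ℕ) (G : SimpleGraph (Fin n)), K.Fin (XG (ZMod p) G)) := by
  have h2 : ∀ (R : Type) [CommRing R] [Algebra.FiniteType ℤ R], ringKrullDim R ≤ 1 →
      (∀ r : R, ∃ d w : ℤ, IsUnit (d : R) ∧ (w : R) = d * r) →
      ((∀ (X : Scheme.{0}) (f : X ⟶ Spec (.of R)), FinType R X f → K.Fin X) ↔
        ∀ (n : ℕ) (G : SimpleGraph (Fin n)), K.Fin (XG R G)) := by
    intro R _ _ hd hq
    refine ⟨fun h n G => fin_graph K h n G, fun h X f hf => ?_⟩
    exact base K False hd hq h (Over.mk f) ⟨hf.1, hf.2, False.elim⟩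
  refine ⟨h2 ℤ dim_int (Pool.Agent.Q193.LT.frac_of_surj fun n => ⟨n, Int.cast_id⟩), h2, ?_⟩
  intro p hp
  have hk : Finite (ZMod p) := inferInstance
  have hd : ringKrullDim (ZMod p) ≤ 1 := by
    rw [ringKrullDim_eq_zero_of_field]
    exact zero_le_one
  have hq : Pool.Agent.Q193.LT.Frac (ZMod p) :=
    Pool.Agent.Q193.LT.frac_of_surj (ZMod.intCast_surjective)
  constructor
  · intro h n G
    have h1 : FT True (kirS (ZMod p) G) := ft_kirS G True
    refine ((dim_iff K (ZMod p) (Nat.card (Fin n ⊕ G.edgeSet))).2).mp (h _) _ h1 ?_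
    unfold kirS
    rw [Pool.Agent.Z125.UN.topDim_aff]
    refine (ringKrullDim_quotient_le _).trans ?_
    rw [MvPolynomial.ringKrullDim_of_isNoetherianRing, ringKrullDim_eq_zero_of_field, zero_add]
  · intro h d X hX _ _
    exact base K True hd hq h X hX

end Pool.Agent.Results.MP_12d50c_ag.GraphHypersurfaces
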